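import Pool.Agent.helper84.TP.SpecC

set_option autoImplicit false

namespace Pool.Agent.TP

open Function

section KEYsec

variable {M M1 : Type} [Group M] [Group M1]

lemma KEY_chain (E F : Subgroup M) (k : ℕ) (g w z : M) (hg : g ∉ E) :
    ((List.replicate k ((false, 1) : Bool × M) ++ [(false, g)]) ++
      (List.replicate k (true, w) ++ [(true, z)])).IsChain
      (fun p q => p.1 ≠ q.1 → p.2 ∉ cond p.1 F E) := by
  rw [List.isChain_append]
  refine ⟨?_, ?_, ?_⟩
  · apply List.Pairwise.isChain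
    apply List.pairwise_of_forall_mem_list
    intro p hp q hq hne
    exfalso
    apply hne
    have h1 : ∀ p ∈ (List.replicate k ((false, 1) : Bool × M) ++ [(false, g)]), p.1 = false := by
      intro p hp
      rw [List.mem_append, List.mem_replicate, List.mem_singleton] at hp
      rcases hp with ⟨_, rfl⟩ | rfl <;> rfl
    rw [h1 p hp, h1 q hq]
  · apply List.Pairwise.isChain
    apply List.pairwise_of_forall_mem_list
    intro p hp q hq hne
    exfalso
    apply hne
    have h1 : ∀ p ∈ (List.replicate k ((true, w) : Bool × M) ++ [(true, z)]), p.1 = true := by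
      intro p hp
      rw [List.mem_append, List.mem_replicate, List.mem_singleton] at hp
      rcases hp with ⟨_, rfl⟩ | rfl <;> rfl
    rw [h1 p hp, h1 q hq]
  · intro x hx y _ _
    rw [List.getLast?_append] at hx
    simp only [List.getLast?_singleton, Option.some_or, Option.mem_def, Option.some.injEq] at hx
    subst hx
    exact hg

lemma KEY_brit (ι : M →* M1) (β : M1) (E F : Subgroup M) (hB : Brit ι β E F) (k : ℕ) (g w z : M)
    (h : (β⁻¹) ^ k * (β⁻¹ * ι g) * (β * ι w) ^ k * (β * ι z) = 1) : g ∈ E := by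
  by_contra hg
  have h1 := hB.2 1 _ (by simp) (KEY_chain E F k g w z hg)
  apply h1
  rw [map_one, one_mul, List.map_append, List.map_append, List.map_append, List.prod_append,
    List.prod_append, List.prod_append, List.map_replicate, List.map_replicate,
    List.prod_replicate, List.prod_replicate]
  simp only [List.map_cons, List.map_nil, List.prod_cons, List.prod_nil, cond_false, cond_true,
    mul_one, map_one]
  rw [← h]
  simp only [mul_assoc]

lemma KEY_pow (v β T : M1) (n : ℕ) :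
    (v * β * T⁻¹) ^ (n + 1) = v * (β * (T⁻¹ * v)) ^ n * (β * T⁻¹) := by
  induction n with
  | zero => simp only [pow_zero, mul_one, zero_add, pow_one, mul_assoc]
  | succ n ih =>
    rw [pow_succ, ih, pow_succ]
    simp only [mul_assoc]

lemma KEY_conj (ι : M →* M1) (β : M1) (a b c : M) (h1 : β⁻¹ * ι a * β = ι a)
    (h2 : β⁻¹ * ι b * β = ι (b * c)) (g : M) (hg : g ∈ Subgroup.closure {a, b}) :
    ∃ f ∈ Subgroup.closure {a, b * c}, β⁻¹ * ι g * β = ι f := by
  induction hg using Subgroup.closure_induction with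
  | mem x hx =>
    rcases hx with rfl | hx
    · exact ⟨x, Subgroup.subset_closure (Set.mem_insert _ _), h1⟩
    · rw [Set.mem_singleton_iff] at hx
      subst hx
      exact ⟨x * c, Subgroup.subset_closure (Set.mem_insert_of_mem _ rfl), h2⟩
  | one => exact ⟨1, Subgroup.one_mem _, by simp⟩
  | mul x y _ _ ihx ihy =>
    obtain ⟨f, hf, e⟩ := ihx
    obtain ⟨f', hf', e'⟩ := ihy
    refine ⟨f * f', Subgroup.mul_mem _ hf hf', ?_⟩
    rw [map_mul, map_mul, ← e, ← e']
    group
  | inv x _ ihx =>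
    obtain ⟨f, hf, e⟩ := ihx
    refine ⟨f⁻¹, Subgroup.inv_mem _ hf, ?_⟩
    rw [map_inv, map_inv, ← e]
    group

lemma KEY_pos (B : Type) [Group B] (ι : M →* M1) (β : M1)
    (a b c T v : M) (π : M →* B)
    (hB : Brit ι β (Subgroup.closure {a, b}) (Subgroup.closure {a, b * c}))
    (h1 : β⁻¹ * ι a * β = ι a) (h2 : β⁻¹ * ι b * β = ι (b * c))
    (hπa : π a = 1) (hπb : π b = 1) (hT : ∀ m : ℤ, π T ≠ π c ^ m)
    (m : ℤ) (n : ℕ) (h : β ^ (n + 1) = ι a ^ m * (ι v * β * (ι T)⁻¹) ^ (n + 1)) : False := by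
  have hF : ∀ f ∈ Subgroup.closure {a, b * c}, ∃ m : ℤ, π f = π c ^ m := by
    intro f hf
    induction hf using Subgroup.closure_induction with
    | mem x hx =>
      rcases hx with rfl | hx
      · exact ⟨0, by rw [hπa, zpow_zero]⟩
      · rw [Set.mem_singleton_iff] at hx
        subst hx
        exact ⟨1, by rw [map_mul, hπb, one_mul, zpow_one]⟩
    | one => exact ⟨0, by simp⟩
    | mul x y _ _ ihx ihy =>
      obtain ⟨m, e⟩ := ihx
      obtain ⟨m', e'⟩ := ihy
      exact ⟨m + m', by rw [map_mul, e, e', zpow_add]⟩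
    | inv x _ ihx =>
      obtain ⟨m, e⟩ := ihx
      exact ⟨-m, by rw [map_inv, e, zpow_neg]⟩
  have hE : ∀ f ∈ Subgroup.closure {a, b}, π f = 1 := by
    intro f hf
    induction hf using Subgroup.closure_induction with
    | mem x hx =>
      rcases hx with rfl | hx
      · exact hπa
      · rw [Set.mem_singleton_iff] at hx
        subst hx
        exact hπb
    | one => simp
    | mul x y _ _ ihx ihy => rw [map_mul, ihx, ihy, one_mul]
    | inv x _ ihx => rw [map_inv, ihx, inv_one]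
  have ha : a ∈ Subgroup.closure {a, b} := Subgroup.subset_closure (Set.mem_insert _ _)
  rw [KEY_pow] at h
  have h3 : (β⁻¹) ^ n * (β⁻¹ * ι (a ^ m * v)) * (β * ι (T⁻¹ * v)) ^ n * (β * ι T⁻¹) = 1 := by
    have e1 : (β⁻¹) ^ n * (β⁻¹ * ι (a ^ m * v)) * (β * ι (T⁻¹ * v)) ^ n * (β * ι T⁻¹)
        = (β ^ (n + 1))⁻¹ * (ι a ^ m * (ι v * (β * ((ι T)⁻¹ * ι v)) ^ n * (β * (ι T)⁻¹))) := by
      rw [map_mul, map_mul, map_zpow, map_inv, ← inv_pow, pow_succ]
      simp only [mul_assoc]
    rw [e1, ← h, inv_mul_cancel]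
  have h4 := KEY_brit ι β _ _ hB n _ _ _ h3
  have hv : v ∈ Subgroup.closure {a, b} := by
    have := Subgroup.mul_mem _ (Subgroup.inv_mem _ (Subgroup.zpow_mem _ ha m)) h4
    rwa [inv_mul_cancel_left] at this
  obtain ⟨f, hf, e⟩ := KEY_conj ι β a b c h1 h2 _ h4
  cases n with
  | zero =>
    rw [pow_zero, pow_zero, one_mul, mul_one, ← mul_assoc, e, ← map_mul] at h3
    have h5 : f * T⁻¹ = 1 := hB.1 (by rw [h3, map_one])
    have h6 : f = T := by rwa [mul_inv_eq_one] at h5
    obtain ⟨m', e'⟩ := hF f hf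
    rw [h6] at e'
    exact hT m' e'
  | succ k =>
    have h5 : (β⁻¹) ^ k * (β⁻¹ * ι (f * (T⁻¹ * v))) * (β * ι (T⁻¹ * v)) ^ k * (β * ι T⁻¹) = 1 := by
      rw [← h3, pow_succ, pow_succ' (β * ι (T⁻¹ * v)) k, map_mul ι f, ← e]
      simp only [mul_assoc]
    have h6 := KEY_brit ι β _ _ hB k _ _ _ h5
    have h7 : f * T⁻¹ ∈ Subgroup.closure {a, b} := by
      have := Subgroup.mul_mem _ h6 (Subgroup.inv_mem _ hv)
      have e2 : f * (T⁻¹ * v) * v⁻¹ = f * T⁻¹ := by group
      rwa [e2] at this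
    have h8 := hE _ h7
    rw [map_mul, map_inv, mul_inv_eq_one] at h8
    obtain ⟨m', e'⟩ := hF f hf
    exact hT m' (by rw [← h8, e'])

end KEYsec

theorem KEY : KEY_stmt := by
  intro M M1 B _ _ _ ι β a b c T v π δ hB h1 h2 hav haT hπa hπb hT hδ hδβ m j l h
  have hlj : j = l := by
    have h3 := congrArg δ h
    rw [map_zpow, map_mul, map_zpow, map_zpow, map_mul, map_mul, map_inv, hδ, hδ, hδ, hδβ] at h3
    rw [one_zpow, one_mul, one_mul, inv_one, mul_one, ← ofAdd_zsmul, ← ofAdd_zsmul] at h3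
    have h4 := Multiplicative.ofAdd.injective h3
    simpa using h4
  subst hlj
  have hcβ : Commute (ι a) β := by
    have : β * (β⁻¹ * ι a * β) = β * ι a := by rw [h1]
    have e : β * (β⁻¹ * ι a * β) = ι a * β := by group
    rw [e] at this
    exact this
  have hcu : Commute (ι a) (ι v * β * (ι T)⁻¹) :=
    ((hav.map ι).mul_right hcβ).mul_right (haT.map ι).inv_right
  by_contra hj
  rcases lt_or_gt_of_ne hj with hneg | hpos
  · obtain ⟨n, hn⟩ : ∃ n : ℕ, -j = (n : ℤ) + 1 := ⟨(-j - 1).toNat, by omega⟩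
    have h3 : β ^ (-j) = ι a ^ (-m) * (ι v * β * (ι T)⁻¹) ^ (-j) := by
      rw [zpow_neg, h, mul_inv_rev, ← zpow_neg, ← zpow_neg]
      exact ((hcu.zpow_zpow (-m) (-j)).eq).symm
    rw [hn] at h3
    have h4 : β ^ (n + 1) = ι a ^ (-m) * (ι v * β * (ι T)⁻¹) ^ (n + 1) := by
      exact_mod_cast h3
    exact KEY_pos B ι β a b c T v π hB h1 h2 hπa hπb hT (-m) n h4
  · obtain ⟨n, hn⟩ : ∃ n : ℕ, j = (n : ℤ) + 1 := ⟨(j - 1).toNat, by omega⟩
    rw [hn] at h
    have h4 : β ^ (n + 1) = ι a ^ m * (ι v * β * (ι T)⁻¹) ^ (n + 1) := by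
      exact_mod_cast h
    exact KEY_pos B ι β a b c T v π hB h1 h2 hπa hπb hT m n h4

end Pool.Agent.TP
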