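import Pool.Agent.helper95.DP.QM
import Pool.Agent.helper64.TP.SpecE
import Pool.Agent.helper64.TP.Basic
import Pool.Agent.helper64.TP.CH
import Pool.Agent.helper64.TP.EXT
namespace TP

open DP

open MeasureTheory

/-! ## Lists of loops of several sizes (brick wall versions) -/

theorem QM_Full_loc (k : Bool) (L : List (V × ℕ)) :
    Loc (Ev fun c => SE1_Full c k L) (SE1_reg L) ∧ Mon k (Ev fun c => SE1_Full c k L) := by
  constructor
  · refine Loc.ev (SE1_reg_finite L) ?_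
    intro c c' hc
    constructor
    · intro h a ha
      obtain ⟨S, hS⟩ := h a ha
      exact ⟨S, CH_loop_colour (fun v hv hv' => (hc v ⟨a, ha, hv⟩) ▸ hv') hS⟩
    · intro h a ha
      obtain ⟨S, hS⟩ := h a ha
      exact ⟨S, CH_loop_colour (fun v hv hv' => (hc v ⟨a, ha, hv⟩).symm ▸ hv') hS⟩
  · refine Mon.ev ?_
    intro c c' hc h a ha
    obtain ⟨S, hS⟩ := h a ha
    exact ⟨S, CH_loop_colour (fun v _ => hc v) hS⟩

theorem QM_Full_prob (hfkg : Bfkg_stmt) (hsq : Bsq_stmt) (c₀ : ℝ) (k : Bool) (ρ : V → ℝ)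
    (L : List (V × ℕ)) (hρ : Profile ρ) (hc : 0 ≤ c₀)
    (hp : ∀ a ∈ L, c₀ ≤ Pr (Ev fun c => ∃ S, Loop c k a.1 a.2 S)) :
    c₀ ^ (2 * L.length) ≤ Q ρ (Ev fun c => SE1_Full c k L) (Ev fun c => SE1_Full c k L) := by
  induction L with
  | nil =>
    have h1 : (Ev fun c => SE1_Full c k []) = Set.univ := by
      ext b
      simp [Ev, SE1_Full]
    rw [h1, CH_Q_univ]
    simp
  | cons a L ih =>
    have h1 : (Ev fun c => SE1_Full c k (a :: L)) =
        (Ev fun c => SE1_Full c k [a]) ∩ Ev fun c => SE1_Full c k L := by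
      ext b
      simp only [Ev, SE1_Full, List.mem_cons, forall_eq_or_imp, Set.mem_ofPred_eq, Set.mem_inter_iff,
        List.not_mem_nil, false_imp_iff, implies_true, and_true]
    have h2 : (Ev fun c => ∃ S, Loop c k a.1 a.2 S) = Ev fun c => SE1_Full c k [a] := by
      ext b
      simp [Ev, SE1_Full]
    have hL1 := QM_Full_loc k [a]
    have hL2 := QM_Full_loc k L
    have h3 := hfkg ρ k _ _ (SE1_reg [a] ∪ SE1_reg L) (hL1.1.mono Set.subset_union_left)
      (hL2.1.mono Set.subset_union_right) hL1.2 hL2.2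
    have h4 := hsq ρ _ _ hρ hL1.1
    have h5 := hp a (by simp)
    rw [h2] at h5
    have h6 : c₀ ^ 2 ≤ Q ρ (Ev fun c => SE1_Full c k [a]) (Ev fun c => SE1_Full c k [a]) :=
      le_trans (pow_le_pow_left₀ hc h5 2) h4
    rw [h1]
    refine le_trans ?_ h3
    have e1 : c₀ ^ (2 * (a :: L).length) = c₀ ^ 2 * c₀ ^ (2 * L.length) := by
      rw [List.length_cons]
      ring
    rw [e1]
    exact mul_le_mul h6 (ih fun b hb => hp b (List.mem_cons_of_mem _ hb)) (pow_nonneg hc _)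
      (le_trans (pow_nonneg hc 2) h6)

theorem QM_MrkC_loc {j : ℕ} {s : Bool} {x : V} {n r : ℕ} {D : Dat} {y : ℕ → V}
    {a A : ℕ} {k : Bool} (hD : D.ok s x r) :
    Loc (Ev fun c => MrkC c j s x n D y a A k) (HS s x n \ (D.N k ∪ opp j y A k)) ∧
      Mon k (Ev fun c => MrkC c j s x n D y a A k) := by
  constructor
  · refine Loc.ev (SE1_R_finite hD) ?_
    intro c c' hc
    exact ⟨SE1_MrkC_mono fun v hv hv' => (hc v hv) ▸ hv',
      SE1_MrkC_mono fun v hv hv' => (hc v hv).symm ▸ hv'⟩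
  · refine Mon.ev ?_
    intro c c' hc h
    exact SE1_MrkC_mono (fun v _ => hc v) h

/-- The sites whose brick meets `A`. -/
def QM_hull (A : Set V) : Set V := {v | ∃ w ∈ A, br v = br w}

theorem QM_hull_bdis {A B : Set V} (h : BDis A B) : BDis (QM_hull A) (QM_hull B) := by
  rintro v ⟨v', hv', e⟩ w ⟨w', hw', e'⟩ e''
  exact h v' hv' w' hw' (by rw [← e, ← e', e''])

/-- The sites whose brick does not meet `A`. -/
theorem QM_compl_bdis {A B : Set V} : BDis ((QM_hull A ∪ QM_hull B)ᶜ) (QM_hull A) ∧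
    BDis ((QM_hull A ∪ QM_hull B)ᶜ) (QM_hull B) := by
  constructor
  · rintro v hv w ⟨w', hw', e'⟩ e
    exact hv (Or.inl ⟨w', hw', e.trans e'⟩)
  · rintro v hv w ⟨w', hw', e'⟩ e
    exact hv (Or.inr ⟨w', hw', e.trans e'⟩)

theorem QM_subset_hull (A : Set V) : A ⊆ QM_hull A := fun v hv => ⟨v, hv, rfl⟩

theorem QM_bdis (j : ℕ) (x : V) (m : ℕ) (hm : 1 ≤ m) :
    BDis (SE1_reg (QM_all j x m true)) (SE1_reg (QM_all j x m false)) := by
  refine BDis.of_sd fun v h1 w h2 => ?_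
  obtain ⟨l, -, hk, r, hr1, hr2, hr⟩ := QM_reg_pos h1
  obtain ⟨l', -, hk', r', hr1', hr2', hr'⟩ := QM_reg_pos h2
  have h3 := SE1_zpt_diff x r r' l l' (SE1_kol (by rw [hk, hk']; simp))
  have h4 := sd_triangle (zpt x r l) v (zpt x r' l')
  have h5 := sd_triangle v w (zpt x r' l')
  rw [sd_comm w] at h5
  omega

theorem QM_avoid_in' (j : ℕ) (x : V) (m : ℕ) (hm : 1 ≤ m) (k : Bool) (N : Set V) (v : V)
    (hv : v ∈ HS true x (1024 * m) \ (N ∪ opp j (zpt x (1024 * m)) (128 * m) k)) :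
    v ∉ QM_hull (SE1_reg (QM_all j x m (!k))) := by
  rintro ⟨w, hw, e⟩
  have hvw := br_eq_sd e
  obtain ⟨l, hl, hk, r, hr1, hr2, hr⟩ := QM_reg_pos hw
  obtain ⟨hv1, hv2⟩ := hv
  apply hv2
  refine Or.inr ⟨l, hl, by rw [hk]; simp, ?_⟩
  have h0 := sd_triangle (zpt x r l) w v
  rw [sd_comm w v] at h0
  have h5 := sd_triangle x v (zpt x r l)
  rw [sd_comm v] at h5
  have h6 := SE1_sd_zpt x r l
  have h7 := SE1_zpt_same x (1024 * m) r l
  have h8 := sd_triangle (zpt x (1024 * m) l) (zpt x r l) v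
  have h1 : sd x v ≤ 1024 * m := hv1
  rw [min_eq_left hr1, max_eq_right hr1] at h7
  omega

theorem QM_avoid_out' (j : ℕ) (x : V) (m : ℕ) (hm : 1 ≤ m) (k : Bool) (N : Set V) (v : V)
    (hv : v ∈ HS false x (2048 * m) \ (N ∪ opp j (zpt x (2048 * m)) (256 * m) k)) :
    v ∉ QM_hull (SE1_reg (QM_all j x m (!k))) := by
  rintro ⟨w, hw, e⟩
  have hvw := br_eq_sd e
  obtain ⟨l, hl, hk, r, hr1, hr2, hr⟩ := QM_reg_pos hw
  obtain ⟨hv1, hv2⟩ := hv
  apply hv2
  refine Or.inr ⟨l, hl, by rw [hk]; simp, ?_⟩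
  have h0 := sd_triangle (zpt x r l) w v
  rw [sd_comm w v] at h0
  have h5' := sd_triangle x (zpt x r l) v
  have h6 := SE1_sd_zpt x r l
  have h7 := SE1_zpt_same x (2048 * m) r l
  have h8 := sd_triangle (zpt x (2048 * m) l) (zpt x r l) v
  have h1 : 2048 * m ≤ sd x v := hv1
  rw [min_eq_right hr2, max_eq_left hr2] at h7
  omega

/-- The gluing in probability. -/
theorem QM_glue (hGL : GL_stmt) (hfkg : Bfkg_stmt) (hsq : Bsq_stmt) (hgen : Bgen_stmt)
    (hind : Bindep_stmt) (hmono : Bmono_stmt) (c₀ : ℝ) (ℓ₀ : ℕ) (hc₀ : 0 < c₀) (hc₁ : c₀ ≤ 1)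
    (hC : ∀ (k : Bool) (g : V) (ℓ : ℕ), ℓ₀ ≤ ℓ → c₀ ≤ Pr (Ev fun c => ∃ S, Loop c k g ℓ S))
    (j : ℕ) (hj : j = 2 ∨ j = 4) (ρ : V → ℝ) (hρ : Profile ρ) (x : V) (hx : Even (x.1 + x.2))
    (i a d : ℕ) (hi : ℓ₀ + 10 ≤ i) (ha : a + 1 ≤ i + 1) (hd : i + 3 ≤ d) :
    (Q ρ (Ev fun c => Std c j true x (2 ^ (i + 1)) (Dfree true x (2 ^ a)))
        (Ev fun c => Std c j true x (2 ^ (i + 1)) (Dfree true x (2 ^ a))) *
      Q ρ (Ev fun c => Std c j false x (2 ^ (i + 2)) (Dfree false x (2 ^ d)))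
        (Ev fun c => Std c j false x (2 ^ (i + 2)) (Dfree false x (2 ^ d)))) *
      (c₀ ^ 2060 * c₀ ^ 2060) ≤
    Q ρ (Ev fun c => ar j c x (2 ^ a) (2 ^ d)) (Ev fun c => ar j c x (2 ^ a) (2 ^ d)) := by
  obtain ⟨m, hmdef⟩ : ∃ m, m = 2 ^ (i - 9) := ⟨_, rfl⟩
  have hm1 : 1 ≤ m := by rw [hmdef]; exact Nat.one_le_two_pow
  have hmℓ : ℓ₀ ≤ m := by
    have h1 : i - 9 < 2 ^ (i - 9) := Nat.lt_two_pow_self
    rw [hmdef]
    omega
  have e1 : 2 ^ (i + 1) = 1024 * m := by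
    rw [hmdef, show (1024 : ℕ) = 2 ^ 10 by norm_num, ← pow_add]; congr 1; omega
  have e2 : 2 ^ (i + 2) = 2048 * m := by
    rw [hmdef, show (2048 : ℕ) = 2 ^ 11 by norm_num, ← pow_add]; congr 1; omega
  have e3 : 2 ^ (i - 4) = 32 * m := by
    rw [hmdef, show (32 : ℕ) = 2 ^ 5 by norm_num, ← pow_add]; congr 1; omega
  have e4 : 2 ^ (i - 3) = 64 * m := by
    rw [hmdef, show (64 : ℕ) = 2 ^ 6 by norm_num, ← pow_add]; congr 1; omega
  have hpa : 2 ^ a ≤ 2 ^ (i + 1) := Nat.pow_le_pow_right (by norm_num) (by omega)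
  have hpa2 : 2 * 2 ^ a ≤ 2 ^ (i + 1) := by
    rw [← pow_succ']; exact Nat.pow_le_pow_right (by norm_num) (by omega)
  have hpd : 2 ^ (i + 3) ≤ 2 ^ d := Nat.pow_le_pow_right (by norm_num) (by omega)
  have hpd' : 2 ^ (i + 2) ≤ 2 ^ d := Nat.pow_le_pow_right (by norm_num) (by omega)
  have okI : (Dfree true x (2 ^ a)).ok true x (1024 * m) := EXT_okT x _ _ (by omega)
  have okO : (Dfree false x (2 ^ d)).ok false x (2048 * m) := EXT_okF x _ _ (by omega)
  set DI := Dfree true x (2 ^ a) with hDI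
  set DO := Dfree false x (2 ^ d) with hDO
  have hSp := QM_Full_loc true (QM_all j x m true)
  have hSm := QM_Full_loc false (QM_all j x m false)
  have hI : ∀ k, _ := fun k => QM_MrkC_loc (j := j) (n := 1024 * m) (y := zpt x (1024 * m))
    (a := 1024 * m / 64) (A := 128 * m) (k := k) okI
  have hO : ∀ k, _ := fun k => QM_MrkC_loc (j := j) (n := 2048 * m) (y := zpt x (2048 * m))
    (a := 2048 * m / 64) (A := 256 * m) (k := k) okO
  set In : Bool → Set (V → Bool) := fun k => Ev fun c => MrkC c j true x (1024 * m) DI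
    (zpt x (1024 * m)) (1024 * m / 64) (128 * m) k with hIn
  set Ou : Bool → Set (V → Bool) := fun k => Ev fun c => MrkC c j false x (2048 * m) DO
    (zpt x (2048 * m)) (2048 * m / 64) (256 * m) k with hOu
  have hdisj := QM_hull_bdis (QM_bdis j x m hm1)
  have hset : (In true ∩ Ou true) ∩ (In false ∩ Ou false) =
      (Ev fun c => Std c j true x (2 ^ (i + 1)) DI) ∩
        (Ev fun c => Std c j false x (2 ^ (i + 2)) DO) := by
    have e8 : 1024 * m / 8 = 128 * m := by omega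
    have e9 : 2048 * m / 8 = 256 * m := by omega
    rw [e1, e2]
    ext b
    simp only [hIn, hOu, Std, Mrk, Ev, Set.mem_inter_iff, Set.mem_ofPred_eq, e8, e9]
    tauto
  have key := hgen ρ Set.univ Set.univ (In true ∩ Ou true) (In false ∩ Ou false)
    (Ev fun c => SE1_Full c true (QM_all j x m true))
    (Ev fun c => SE1_Full c false (QM_all j x m false))
    ((QM_hull (SE1_reg (QM_all j x m true)) ∪ QM_hull (SE1_reg (QM_all j x m false)))ᶜ)
    (QM_hull (SE1_reg (QM_all j x m true))) (QM_hull (SE1_reg (QM_all j x m false)))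
    QM_compl_bdis.1 QM_compl_bdis.2
    hdisj (Loc.univ _) (Loc.univ _)
    (by
      refine ((hI true).1.inter (hO true).1).mono ?_
      intro v hv
      have h1 : v ∉ QM_hull (SE1_reg (QM_all j x m false)) := by
        rcases hv with hv | hv
        · exact QM_avoid_in' j x m hm1 true _ v hv
        · exact QM_avoid_out' j x m hm1 true _ v hv
      by_cases h2 : v ∈ QM_hull (SE1_reg (QM_all j x m true))
      · exact Or.inr h2
      · exact Or.inl fun h => h.elim h2 h1)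
    (by
      refine ((hI false).1.inter (hO false).1).mono ?_
      intro v hv
      have h1 : v ∉ QM_hull (SE1_reg (QM_all j x m true)) := by
        rcases hv with hv | hv
        · exact QM_avoid_in' j x m hm1 false _ v hv
        · exact QM_avoid_out' j x m hm1 false _ v hv
      by_cases h2 : v ∈ QM_hull (SE1_reg (QM_all j x m false))
      · exact Or.inr h2
      · exact Or.inl fun h => h.elim h1 h2)
    (hSp.1.mono (QM_subset_hull _)) (hSm.1.mono (QM_subset_hull _))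
    ((hI true).2.inter (hO true).2) ((hI false).2.inter (hO false).2) hSp.2 hSm.2
  rw [Set.univ_inter, Set.univ_inter] at key
  have e8 : 1024 * m / 8 = 128 * m := by omega
  have e9 : 2048 * m / 8 = 256 * m := by omega
  rw [hset] at key
  -- independence of the inner and the outer part
  have locIn : Loc (Ev fun c => Std c j true x (2 ^ (i + 1)) DI) (box x (1024 * m)) := by
    have h1 : (Ev fun c => Std c j true x (2 ^ (i + 1)) DI) = In true ∩ In false := by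
      rw [e1]
      ext b
      simp only [hIn, Std, Mrk, Ev, Set.mem_inter_iff, Set.mem_ofPred_eq, e8]
    rw [h1]
    refine ((hI true).1.inter (hI false).1).mono ?_
    rintro v (hv | hv)
    · exact hv.1
    · exact hv.1
  have locOu : Loc (Ev fun c => Std c j false x (2 ^ (i + 2)) DO) {v | 2048 * m ≤ sd x v} := by
    have h1 : (Ev fun c => Std c j false x (2 ^ (i + 2)) DO) = Ou true ∩ Ou false := by
      rw [e2]
      ext b
      simp only [hOu, Std, Mrk, Ev, Set.mem_inter_iff, Set.mem_ofPred_eq, e9]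
    rw [h1]
    refine ((hO true).1.inter (hO false).1).mono ?_
    rintro v (hv | hv)
    · exact hv.1
    · exact hv.1
  have hdj : BDis (box x (1024 * m)) {v | 2048 * m ≤ sd x v} := by
    refine BDis.of_sd fun v hv w hw => ?_
    have h1 : sd x v ≤ 1024 * m := hv
    have h2 : 2048 * m ≤ sd x w := hw
    have h3 := sd_triangle x v w
    omega
  rw [hind ρ _ _ _ _ _ _ hdj locIn locIn locOu locOu] at key
  -- the loops
  have hloops : ∀ k : Bool, ∀ e ∈ QM_all j x m k, c₀ ≤ Pr (Ev fun c => ∃ S, Loop c k e.1 e.2 S) := by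
    intro k e he
    apply hC
    obtain ⟨l, -, -, hal⟩ := QM_all_mem he
    rcases QM_cells_mem hal with rfl | rfl | ⟨t, -, rfl⟩
    · show ℓ₀ ≤ 32 * m
      omega
    · show ℓ₀ ≤ 64 * m
      omega
    · exact hmℓ
  have hP : ∀ k : Bool, c₀ ^ 2060 ≤ Q ρ (Ev fun c => SE1_Full c k (QM_all j x m k))
      (Ev fun c => SE1_Full c k (QM_all j x m k)) := by
    intro k
    refine le_trans ?_ (QM_Full_prob hfkg hsq c₀ k ρ (QM_all j x m k) hρ hc₀.le (hloops k))
    apply pow_le_pow_of_le_one hc₀.le hc₁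
    have := QM_length j hj x m k
    omega
  -- the inclusion
  have hincl : ((Ev fun c => Std c j true x (2 ^ (i + 1)) DI) ∩
        (Ev fun c => Std c j false x (2 ^ (i + 2)) DO)) ∩
      ((Ev fun c => SE1_Full c true (QM_all j x m true)) ∩
        (Ev fun c => SE1_Full c false (QM_all j x m false))) ⊆
      Ev fun c => ar j c x (2 ^ a) (2 ^ d) := by
    rintro b ⟨⟨hb1, hb2⟩, hb3, hb4⟩
    have hfull : ∀ l < j, ∀ e ∈ QM_cells x m l, ∃ S, Loop (col b) (kol l) e.1 e.2 S := by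
      intro l hl e he
      cases hk : kol l
      · exact hb4 e (QM_mem_all hl hk he)
      · exact hb3 e (QM_mem_all hl hk he)
    refine hGL (col b) j x (2 ^ a) i (2 ^ d) (fun l => QM_gs x m l) hj hx Nat.one_le_two_pow hpa2 hpd
      (by omega) hb1 hb2 fun l hl => ⟨?_, ?_, ?_, ?_⟩
    · have := hfull l hl (zpt x (1024 * m) l, 32 * m) (by simp [QM_cells])
      rw [e1, e3]; exact this
    · have := hfull l hl (zpt x (2048 * m) l, 64 * m) (by simp [QM_cells])
      rw [e2, e4]; exact this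
    · rw [e1, ← hmdef]; rfl
    · rw [← hmdef]
      intro g hg
      exact hfull l hl (g, m) (by
        unfold QM_cells
        exact List.mem_cons_of_mem _ (List.mem_cons_of_mem _ (List.mem_map.2 ⟨g, hg, rfl⟩)))
  have hmn := hmono ρ _ _ _ _ hincl hincl
  refine le_trans ?_ (key.trans hmn)
  have hc2 : 0 ≤ c₀ ^ 2060 := by positivity
  exact mul_le_mul_of_nonneg_left (mul_le_mul (hP true) (hP false) hc2 (hc2.trans (hP true)))
    (mul_nonneg (SE1_Q_nonneg _ _ _) (SE1_Q_nonneg _ _ _))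

theorem QM (hGL : GL_stmt) (hSEPO : SEPO_stmt) (hSEPI : SEPI_stmt) (hLB : LB_stmt) (hEXT : EXT_stmt)
    (hFA : FA_stmt) (hAM : AM_stmt) (hC1 : C1_stmt) (hfkg : Bfkg_stmt) (hsq : Bsq_stmt)
    (hgen : Bgen_stmt) (hind : Bindep_stmt) (hmono : Bmono_stmt) : QM_stmt := by
  obtain ⟨c₀, hc₀, ℓ₀, hℓ₀, hC⟩ := hC1
  have hc₁ : c₀ ≤ 1 := le_trans (hC true (0, 0) ℓ₀ le_rfl) (SE1_Pr_le_one _)
  obtain ⟨b₀, hb₀, iL, hL⟩ := hLB
  obtain ⟨C₁, hC₁, iO, hO⟩ := hSEPO b₀ hb₀
  obtain ⟨C₂, hC₂, iI, hI⟩ := hSEPI b₀ hb₀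
  obtain ⟨c₃, hc₃, iE, hE⟩ := hEXT
  have hpow : ∀ {i k : ℕ}, i < k → 2 ^ i < 2 ^ k := fun h => Nat.pow_lt_pow_right (by norm_num) h
  have hpow' : ∀ {i k : ℕ}, i ≤ k → 2 ^ i ≤ 2 ^ k := fun h => Nat.pow_le_pow_right (by norm_num) h
  have hpos : ∀ i : ℕ, 1 ≤ 2 ^ i := fun i => Nat.one_le_two_pow
  have hFT : ∀ (j : ℕ) (x : V) (a b : ℕ), j = 2 ∨ j = 4 → Even (x.1 + x.2) → a < b →
      ∀ c, Fam c j true x (2 ^ b) (Dfree true x (2 ^ a)) ↔ ar j c x (2 ^ a) (2 ^ b) :=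
    fun j x a b hj hx hab c => (hFA c j x (2 ^ a) (2 ^ b) hj hx (hpos a) (hpow hab)).1
  have hFF : ∀ (j : ℕ) (x : V) (a b : ℕ), j = 2 ∨ j = 4 → Even (x.1 + x.2) → a < b →
      ∀ c, Fam c j false x (2 ^ a) (Dfree false x (2 ^ b)) ↔ ar j c x (2 ^ a) (2 ^ b) :=
    fun j x a b hj hx hab c => (hFA c j x (2 ^ a) (2 ^ b) hj hx (hpos a) (hpow hab)).2
  have hAM' : ∀ (j : ℕ) (x : V) (a a' b' b : ℕ), j = 2 ∨ j = 4 → a ≤ a' → a' ≤ b' → b' ≤ b →
      ∀ c, ar j c x (2 ^ a) (2 ^ b) → ar j c x (2 ^ a') (2 ^ b') :=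
    fun j x a a' b' b hj h1 h2 h3 c => hAM c j x _ _ _ _ hj (hpow' h1) (hpow' h2) (hpow' h3)
  obtain ⟨c₄, hc₄def⟩ : ∃ c, c = c₀ ^ 2060 * c₀ ^ 2060 := ⟨_, rfl⟩
  have hc₄ : 0 < c₄ := by rw [hc₄def]; positivity
  refine ⟨min c₃ (min (c₃ * c₃) (c₄ / (C₁ * C₂))), by positivity,
    iL + iO + iI + iE + ℓ₀ + 20, ?_⟩
  intro j ρ x a b d hj hρ hx ha hab hbd
  have hQ0 : ∀ F G, 0 ≤ Q ρ F G := fun F G => MeasureTheory.measureReal_nonneg
  have hPP : IsProbabilityMeasure (PP ρ) := by unfold PP; infer_instance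
  have hQ1 : ∀ F G, Q ρ F G ≤ 1 := fun F G => measureReal_le_one
  set qab := Q ρ (Ev fun c => ar j c x (2 ^ a) (2 ^ b)) (Ev fun c => ar j c x (2 ^ a) (2 ^ b)) with hqab
  set qbd := Q ρ (Ev fun c => ar j c x (2 ^ b) (2 ^ d)) (Ev fun c => ar j c x (2 ^ b) (2 ^ d)) with hqbd
  have n1 : 0 ≤ qab := hQ0 _ _
  have n2 : 0 ≤ qbd := hQ0 _ _
  have n3 : 0 ≤ qab * qbd := mul_nonneg n1 n2
  have m1 : min c₃ (min (c₃ * c₃) (c₄ / (C₁ * C₂))) ≤ c₃ := min_le_left _ _
  have m2 : min c₃ (min (c₃ * c₃) (c₄ / (C₁ * C₂))) ≤ c₃ * c₃ :=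
    (min_le_right _ _).trans (min_le_left _ _)
  have m3 : min c₃ (min (c₃ * c₃) (c₄ / (C₁ * C₂))) ≤ c₄ / (C₁ * C₂) :=
    (min_le_right _ _).trans (min_le_right _ _)
  by_cases h1 : b = a + 1
  · -- extend inwards
    subst h1
    have h2 := (hE j ρ x (a + 1) d hj hρ hx (by omega) hbd).2.1 (by omega)
    rw [Nat.add_sub_cancel] at h2
    refine le_trans ?_ h2
    calc _ ≤ c₃ * (qab * qbd) := mul_le_mul_of_nonneg_right m1 n3
      _ ≤ c₃ * (1 * qbd) := mul_le_mul_of_nonneg_left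
          (mul_le_mul_of_nonneg_right (hQ1 _ _) n2) hc₃.le
      _ = c₃ * qbd := by rw [one_mul]
  by_cases h3 : d = b + 1
  · subst h3
    have h2 := (hE j ρ x a b hj hρ hx (by omega) hab).1
    refine le_trans ?_ h2
    calc _ ≤ c₃ * (qab * qbd) := mul_le_mul_of_nonneg_right m1 n3
      _ ≤ c₃ * (qab * 1) := mul_le_mul_of_nonneg_left
          (mul_le_mul_of_nonneg_left (hQ1 _ _) n1) hc₃.le
      _ = c₃ * qab := by rw [mul_one]
  by_cases h4 : d = b + 2
  · subst h4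
    have h2 := (hE j ρ x a b hj hρ hx (by omega) hab).1
    have h5 := (hE j ρ x a (b + 1) hj hρ hx (by omega) (by omega)).1
    refine le_trans ?_ h5
    calc _ ≤ c₃ * c₃ * (qab * qbd) := mul_le_mul_of_nonneg_right m2 n3
      _ ≤ c₃ * c₃ * (qab * 1) := mul_le_mul_of_nonneg_left
          (mul_le_mul_of_nonneg_left (hQ1 _ _) n1) (by positivity)
      _ = c₃ * (c₃ * qab) := by ring
      _ ≤ _ := mul_le_mul_of_nonneg_left h2 hc₃.le
  -- the main case
  obtain ⟨i, rfl⟩ : ∃ i, b = i + 1 := ⟨b - 1, by omega⟩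
  -- outer separation of the inner arms
  have g1 : qab ≤ C₁ * Q ρ (Ev fun c => Std c j true x (2 ^ (i + 1)) (Dfree true x (2 ^ a)))
      (Ev fun c => Std c j true x (2 ^ (i + 1)) (Dfree true x (2 ^ a))) := by
    have h5 := hO j ρ x (Dfree true x (2 ^ a)) (a + 1) hj hρ hx (by omega)
      (EXT_okT x _ _ (hpow' (by omega))) (fun c i hi h => by
        rw [hFT j x a (i + 1) hj hx (by omega)] at h
        rw [hFT j x a i hj hx (by omega)]
        exact hAM' j x a a i (i + 1) hj le_rfl (by omega) (by omega) c h)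
      (hL j ρ x a hj hρ hx (by omega)).1 i (by omega)
    refine le_trans (hmono ρ _ _ _ _ ?_ ?_) h5
    all_goals
      intro bb hbb
      exact (hFT j x a i hj hx (by omega) (col bb)).2
        (hAM' j x a a i (i + 1) hj le_rfl (by omega) (by omega) _ hbb)
  have g2 : qbd ≤ C₂ * Q ρ (Ev fun c => Std c j false x (2 ^ (i + 2)) (Dfree false x (2 ^ d)))
      (Ev fun c => Std c j false x (2 ^ (i + 2)) (Dfree false x (2 ^ d))) := by
    have h5 := hI j ρ x (Dfree false x (2 ^ d)) (d - 1) hj hρ hx (by omega)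
      (EXT_okF x _ _ (hpow' (by omega))) (fun c i hi hi' h => by
        rw [hFF j x i d hj hx (by omega)] at h
        rw [hFF j x (i + 1) d hj hx (by omega)]
        exact hAM' j x i (i + 1) d d hj (by omega) (by omega) le_rfl c h)
      (by
        have := (hL j ρ x (d - 2) hj hρ hx (by omega)).2.2
        have e1 : d - 2 + 2 = d := by omega
        have e2 : d - 1 - 1 = d - 2 := by omega
        rw [e1] at this
        rw [e2]
        exact this) (i + 3) (by omega) (by omega)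
    have e5 : i + 3 - 1 = i + 2 := by omega
    rw [e5] at h5
    refine le_trans (hmono ρ _ _ _ _ ?_ ?_) h5
    all_goals
      intro bb hbb
      exact (hFF j x (i + 3) d hj hx (by omega) (col bb)).2
        (hAM' j x (i + 1) (i + 3) d d hj (by omega) (by omega) le_rfl _ hbb)
  have g3 := QM_glue hGL hfkg hsq hgen hind hmono c₀ ℓ₀ hc₀ hc₁ hC j hj ρ hρ x hx i a d (by omega)
    (by omega) (by omega)
  rw [← hc₄def] at g3
  refine le_trans ?_ g3
  set qi := Q ρ (Ev fun c => Std c j true x (2 ^ (i + 1)) (Dfree true x (2 ^ a)))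
      (Ev fun c => Std c j true x (2 ^ (i + 1)) (Dfree true x (2 ^ a)))
  set qo := Q ρ (Ev fun c => Std c j false x (2 ^ (i + 2)) (Dfree false x (2 ^ d)))
      (Ev fun c => Std c j false x (2 ^ (i + 2)) (Dfree false x (2 ^ d)))
  calc _ ≤ c₄ / (C₁ * C₂) * (qab * qbd) := mul_le_mul_of_nonneg_right m3 n3
    _ ≤ c₄ / (C₁ * C₂) * ((C₁ * qi) * (C₂ * qo)) := by
        refine mul_le_mul_of_nonneg_left ?_ (by positivity)
        exact mul_le_mul g1 g2 n2 (mul_nonneg hC₁.le (hQ0 _ _))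
    _ = qi * qo * c₄ := by field_simp

end TP
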